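import Pool.Agent.H64.STM.Targets

/-!
# CDI: the contractions of diagrams are multiples of diagrams
-/

set_option autoImplicit false

open Matrix Pool.Agent.H64.CC Pool.Agent.H2.NL Pool.Agent.H2.KM Pool.Agent.H64.EV
  Pool.Agent.H64.FTM Pool.Agent.H64.STM

namespace Pool.Agent.H10.STM

theorem pf_CDI (hACT : T_ACT) (hCAC : T_CAC) (hHYP : T_HYP) (hCBS : T_CBS) : T_CDI := by
  intro k σ
  let z0 : Fin (2 * (k + 1)) := ⟨0, by omega⟩
  let z1 : Fin (2 * (k + 1)) := ⟨1, by omega⟩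
  obtain ⟨h0, h00, h0d⟩ := (hHYP k).1 (σ.symm z0)
  let σ1 : Equiv.Perm (Fin (2 * (k + 1))) := σ * h0
  have s10 : σ1 z0 = z0 := by
    change σ (h0 z0) = z0
    rw [h00 z0 rfl, Equiv.apply_symm_apply]
  have s1d : ∀ (K : Type) [Field K] (I : Type) [Fintype I] [DecidableEq I] (F : OForm K I),
      ac F.o σ (dg F (k + 1)) = ac F.o σ1 (dg F (k + 1)) := by
    intro K _ I _ _ F
    rw [(hACT K I F.o (2 * (k + 1))).1 σ h0, h0d K I F]
  have hp0 : (σ1.symm z1).1 ≠ 0 := by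
    intro h
    have e1 : σ1.symm z1 = z0 := Fin.ext h
    have e2 : σ1 (σ1.symm z1) = σ1 z0 := by rw [e1]
    rw [Equiv.apply_symm_apply, s10] at e2
    exact absurd (show (1 : ℕ) = 0 from congrArg Fin.val e2) (by decide)
  by_cases hp1 : (σ1.symm z1).1 = 1
  · have s11 : σ1 z1 = z1 := by
      have e1 : σ1.symm z1 = z1 := Fin.ext hp1
      have e2 : σ1 (σ1.symm z1) = σ1 z1 := by rw [e1]
      rw [Equiv.apply_symm_apply] at e2
      exact e2.symm
    obtain ⟨π, hπ⟩ := hCAC (2 * k) σ1 s10 s11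
    refine ⟨π, 1, fun K _ I _ _ F w => ?_⟩
    rw [s1d K I F]
    have e1 : cf F (ac F.o σ1 (dg F (k + 1))) = ac F.o π (cf F (dg F (k + 1))) :=
      hπ K I F (dg F (k + 1))
    have e2 : cf F (dg F (k + 1)) = fun w => F.sd * dg F k w :=
      funext fun w => (hCBS K I F k).1 w
    rw [e1, e2, pow_one]
    simp only [ac]
    ring
  · have hk : 1 ≤ k := by
      have := (σ1.symm z1).2
      omega
    let z2 : Fin (2 * (k + 1)) := ⟨2, by omega⟩
    obtain ⟨h1, h1a, h1b, h1d⟩ := (hHYP k).2 (σ1.symm z1) (by omega)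
    let τ : Equiv.Perm (Fin (2 * (k + 1))) := (σ1 * h1) * Equiv.swap z1 z2
    have n01 : z0 ≠ z1 := fun h => absurd (show (0 : ℕ) = 1 from congrArg Fin.val h) (by decide)
    have n02 : z0 ≠ z2 := fun h => absurd (show (0 : ℕ) = 2 from congrArg Fin.val h) (by decide)
    have t0 : τ z0 = z0 := by
      change σ1 (h1 (Equiv.swap z1 z2 z0)) = z0
      rw [Equiv.swap_apply_of_ne_of_ne n01 n02, h1a z0 (show (0 : ℕ) < 2 by decide), s10]
    have t1 : τ z1 = z1 := by
      change σ1 (h1 (Equiv.swap z1 z2 z1)) = z1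
      rw [Equiv.swap_apply_left, h1b z2 rfl, Equiv.apply_symm_apply]
    have hτ : τ * Equiv.swap z1 z2 = σ1 * h1 := by
      change ((σ1 * h1) * Equiv.swap z1 z2) * Equiv.swap z1 z2 = σ1 * h1
      rw [mul_assoc, Equiv.swap_mul_self, mul_one]
    obtain ⟨π, hπ⟩ := hCAC (2 * k) τ t0 t1
    refine ⟨π, 0, fun K _ I _ _ F w => ?_⟩
    have e0 : ac F.o σ (dg F (k + 1)) =
        ac F.o τ (ac F.o (Equiv.swap z1 z2) (dg F (k + 1))) := by
      rw [s1d K I F, ← (hACT K I F.o (2 * (k + 1))).1 τ (Equiv.swap z1 z2), hτ,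
        (hACT K I F.o (2 * (k + 1))).1 σ1 h1, h1d K I F]
    have e1 : cf F (ac F.o τ (ac F.o (Equiv.swap z1 z2) (dg F (k + 1)))) =
        ac F.o π (cf F (ac F.o (Equiv.swap z1 z2) (dg F (k + 1)))) :=
      hπ K I F (ac F.o (Equiv.swap z1 z2) (dg F (k + 1)))
    have e2 : cf F (ac F.o (Equiv.swap z1 z2) (dg F (k + 1))) = dg F k := by
      funext w
      refine (hCBS K I F k).2 (Equiv.swap z1 z2) ?_ ?_ ?_ hk w
      · intro i hi
        have : i = z1 := Fin.ext hi
        rw [this, Equiv.swap_apply_left]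
      · intro i hi
        have : i = z2 := Fin.ext hi
        rw [this, Equiv.swap_apply_right]
      · intro i hi1 hi2
        exact Equiv.swap_apply_of_ne_of_ne (fun h => hi1 (congrArg Fin.val h))
          (fun h => hi2 (congrArg Fin.val h))
    rw [e0, e1, e2, pow_zero, one_mul]

end Pool.Agent.H10.STM
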